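import Pool.Agent.N600.L3.Stm

/-!
# Project L3, leaf LAT: finite quotients of rings of algebraic integers

By helper426.
-/

set_option autoImplicit false

namespace Pool.Agent.N426.L3

open Pool.Agent.N600.L3

universe u

theorem t_lat : S_LAT.{u} := by
  classical
  intro F _ _ s hs hint Z hZ h0 hsub
  have hfg : (Subalgebra.toSubmodule (Algebra.adjoin ℤ s)).FG := fg_adjoin_of_finite hs hint
  have hfin : Module.Finite ℤ (Algebra.adjoin ℤ s) := Module.Finite.iff_fg.2 hfg
  have hfree : Module.Free ℤ (Algebra.adjoin ℤ s) := Module.free_of_finite_type_torsion_free'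
  have hZ' : {z : Algebra.adjoin ℤ s | (z : F) ∈ Z}.Finite :=
    hZ.preimage Subtype.val_injective.injOn
  let β := Module.finBasis ℤ (Algebra.adjoin ℤ s)
  let n : ℕ := 1 + ∑ z ∈ hZ'.toFinset, ∑ i, (β.repr z i).natAbs
  have hn : (n : Algebra.adjoin ℤ s) ≠ 0 := by
    have : n ≠ 0 := by omega
    exact_mod_cast this
  have hI : (Ideal.span {(n : Algebra.adjoin ℤ s)}) ≠ ⊥ := by
    rw [Ne, Ideal.span_singleton_eq_bot]; exact hn
  have hfq : Finite (Algebra.adjoin ℤ s ⧸ Ideal.span {(n : Algebra.adjoin ℤ s)}) :=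
    Ideal.finiteQuotientOfFreeOfNeBot _ hI
  refine ⟨_, inferInstance, hfq, Ideal.Quotient.mk _, fun z hz hzZ h => ?_⟩
  rw [Ideal.Quotient.eq_zero_iff_mem, Ideal.mem_span_singleton] at h
  obtain ⟨y, hy⟩ := h
  have hlt : ∀ i, (β.repr ⟨z, hz⟩ i).natAbs < n := by
    intro i
    have h1 : (β.repr ⟨z, hz⟩ i).natAbs ≤ ∑ i, (β.repr ⟨z, hz⟩ i).natAbs :=
      Finset.single_le_sum (f := fun i => (β.repr ⟨z, hz⟩ i).natAbs)
        (fun _ _ => Nat.zero_le _) (Finset.mem_univ i)
    have h2 : ∑ i, (β.repr ⟨z, hz⟩ i).natAbs ≤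
        ∑ z ∈ hZ'.toFinset, ∑ i, (β.repr z i).natAbs :=
      Finset.single_le_sum (f := fun z => ∑ i, (β.repr z i).natAbs)
        (fun _ _ => Nat.zero_le _) (by simpa using hzZ)
    omega
  have hzero : (⟨z, hz⟩ : Algebra.adjoin ℤ s) = 0 := by
    apply β.repr.injective
    rw [map_zero]
    ext i
    have h3 : β.repr ⟨z, hz⟩ i = (n : ℤ) * β.repr y i := by
      rw [hy]
      have : (n : Algebra.adjoin ℤ s) * y = (n : ℤ) • y := by
        rw [zsmul_eq_mul]; norm_cast
      rw [this, map_smul]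
      rfl
    have h4 := hlt i
    rw [h3, Int.natAbs_mul, Int.natAbs_natCast] at h4
    have h5 : (β.repr y i).natAbs = 0 := by
      by_contra h6
      have : 1 ≤ (β.repr y i).natAbs := Nat.one_le_iff_ne_zero.2 h6
      nlinarith
    rw [h3, Int.natAbs_eq_zero.1 h5, mul_zero]
    rfl
  have : z = 0 := congrArg Subtype.val hzero
  exact h0 (this ▸ hzZ)

end Pool.Agent.N426.L3
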